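import Pool.Agent.Q72.AL.Stm2

/-! Job AL-N2P. -/

set_option autoImplicit false

open Complex MeasureTheory Filter Topology Set
open H345 (Zo aa XX)

namespace Pool.Agent.Q204.AL

open Pool.Agent.Q72.AL

theorem ZZ_cont (Z : Finset ℝ) (κ T : ℝ) : Continuous fun v => ZZ Z κ v T := by
  unfold ZZ
  fun_prop

theorem norm_ZZ_eq (Z : Finset ℝ) (v T : ℝ) :
    ‖∑ t ∈ Z, (aa t * ((Real.exp (-(1 * (t - T) ^ 2)) : ℝ) : ℂ)) * cexp (((t * v : ℝ) : ℂ) * I)‖ =
      ‖ZZ Z 1 v T‖ := by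
  have h : ZZ Z 1 v T = cexp (((-(T * v) : ℝ) : ℂ) * I) *
      ∑ t ∈ Z, (aa t * ((Real.exp (-(1 * (t - T) ^ 2)) : ℝ) : ℂ)) * cexp (((t * v : ℝ) : ℂ) * I) := by
    unfold ZZ
    rw [Finset.mul_sum]
    refine Finset.sum_congr rfl fun t _ => ?_
    have h1 : cexp ((((t - T) * v : ℝ) : ℂ) * I) = cexp (((-(T * v) : ℝ) : ℂ) * I) * cexp (((t * v : ℝ) : ℂ) * I) := by
      rw [← Complex.exp_add]
      congr 1
      push_cast
      ring
    rw [h1]
    ring
  rw [h, norm_mul, norm_exp_ofReal_mul_I, one_mul]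

theorem norm_b (t T : ℝ) : ‖aa t * ((Real.exp (-(1 * (t - T) ^ 2)) : ℝ) : ℂ)‖ = ‖aa t‖ * Real.exp (-(t - T) ^ 2) := by
  rw [norm_mul, Complex.norm_real, Real.norm_of_nonneg (Real.exp_pos _).le, one_mul]

theorem n2p (h1 : J_AB) (h2 : J_CNT) (h3 : J_ORT) : J_N2P := by
  classical
  intro RH a
  obtain ⟨C1, X1, hC1, hAB⟩ := h1 RH
  obtain ⟨-, hcard⟩ := h2
  obtain ⟨C2, hC2, hort⟩ := h3
  refine ⟨max X1 (Real.exp (C1 + C2 ^ 2 + 2 * |a| + 16 * (3 + |a|) + 6)), fun X δ hX hδ hδ1 hyp Z hZ T hT1 hT2 => ?_⟩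
  have hXX1 : X1 ≤ X := (le_max_left _ _).trans hX
  have hXe : Real.exp (C1 + C2 ^ 2 + 2 * |a| + 16 * (3 + |a|) + 6) ≤ X := (le_max_right _ _).trans hX
  have hXpos : 0 < X := (Real.exp_pos _).trans_le hXe
  set L : ℝ := Real.log X with hLdef
  have hL0 : C1 + C2 ^ 2 + 2 * |a| + 16 * (3 + |a|) + 6 ≤ L := by
    rw [hLdef, ← Real.log_exp (C1 + C2 ^ 2 + 2 * |a| + 16 * (3 + |a|) + 6)]
    exact Real.log_le_log (Real.exp_pos _) hXe
  have haa := abs_nonneg a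
  have hC22 := sq_nonneg C2
  have hL6 : C1 + 6 ≤ L := by linarith
  have hLC2 : C2 ^ 2 ≤ L := by linarith
  have hLa : 2 * |a| ≤ L := by linarith
  have hL16 : 16 * (3 + |a|) ≤ L := by linarith
  have hL1 : 1 ≤ L := by linarith
  have hLpos : 0 < L := by linarith
  have hXL : X = Real.exp L := (Real.exp_log hXpos).symm
  have hTpos : 0 < T := hXpos.trans_le hT1
  have hlT1 : L ≤ Real.log T := Real.log_le_log hXpos hT1
  have hlT2 : Real.log T ≤ L + 1 := by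
    have h4 : Real.log T ≤ Real.log (2 * X) := Real.log_le_log hTpos hT2
    rw [Real.log_mul two_ne_zero hXpos.ne'] at h4
    have h5 : Real.log 2 < 1 := by
      have := Real.log_two_lt_d9
      linarith
    linarith
  set P : ℝ := 2 * (Real.log T + a) with hPdef
  have ha1 := neg_abs_le a
  have ha2 := le_abs_self a
  have hPL : L ≤ P := by linarith
  have hP1 : 1 ≤ P := hL1.trans hPL
  have hPpos : 0 < P := by linarith
  set U : ℝ := L + 4 + 2 * |a| with hUdef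
  have hPU : -L + P + 2 ≤ U := by linarith
  set Z' : Finset ℝ := Z.filter (fun t => |t - T| ≤ L ^ 2) with hZ'
  set Zr : Finset ℝ := Z.filter (fun t => ¬ |t - T| ≤ L ^ 2) with hZr
  -- ORT
  have hs : ∀ t ∈ Z, ∀ t' ∈ Z, t < t' → 1 / L ≤ t' - t := by
    intro t ht t' ht' htt
    exact hyp.spaced t (hZ t ht).1 t' (hZ t' ht').1 (by linarith [(hZ t ht).2.1]) htt
      (by linarith [(hZ t' ht').2.2])
  have hsq : Real.sqrt L * Real.sqrt L = L := Real.mul_self_sqrt hLpos.le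
  have hsqpos : 0 < Real.sqrt L := Real.sqrt_pos.2 hLpos
  have hC2s : C2 ≤ Real.sqrt L := by
    rw [← Real.sqrt_sq hC2.le]
    exact Real.sqrt_le_sqrt hLC2
  have hO := hort Z' (fun t => aa t * ((Real.exp (-(1 * (t - T) ^ 2)) : ℝ) : ℂ)) P L (δ / Real.sqrt L) (-L) hL1 hP1
    (by positivity) (fun t ht t' ht' => hs t (Finset.mem_filter.1 ht).1 t' (Finset.mem_filter.1 ht').1)
    (fun t ht t' ht' => hyp.latt T hT1 hT2 t (hZ t (Finset.mem_filter.1 ht).1).1 t' (hZ t' (Finset.mem_filter.1 ht').1).1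
      (Finset.mem_filter.1 ht).2 (Finset.mem_filter.1 ht').2)
    (by
      have h4 : C2 * (δ / Real.sqrt L) * L = C2 * δ * Real.sqrt L := by
        calc C2 * (δ / Real.sqrt L) * L = C2 * (δ / Real.sqrt L) * (Real.sqrt L * Real.sqrt L) := by rw [hsq]
          _ = C2 * δ * Real.sqrt L := by field_simp
      rw [h4]
      have h5 : C2 * δ ≤ Real.sqrt L * 1 := mul_le_mul hC2s hδ1 hδ.le hsqpos.le
      nlinarith)
  simp only [norm_ZZ_eq, norm_b] at hO
  -- size of the rest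
  have hcZ : (Z.card : ℝ) ≤ 7 * X * L := by
    have h4 := hcard L (X / 3) (5 * X) Z hLpos (by linarith) (fun t ht => (hZ t ht).2) hs
    have h5 : 1 ≤ X * L := by
      have : 1 ≤ X := by rw [hXL]; exact Real.one_le_exp hLpos.le
      nlinarith
    nlinarith
  have hAB' : ∀ t ∈ Z, ‖aa t‖ ≤ Real.exp (C1 * L ^ 2) := fun t ht =>
    hAB X hXX1 hyp.simple hyp.spaced t (hZ t ht).1 (hZ t ht).2.1 (hZ t ht).2.2
  have hfar : ∀ t ∈ Zr, L ^ 4 ≤ (t - T) ^ 2 := by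
    intro t ht
    have h4 := (Finset.mem_filter.1 ht).2
    push Not at h4
    have h5 : (L ^ 2) ^ 2 ≤ |t - T| ^ 2 := pow_le_pow_left₀ (by positivity) h4.le 2
    rw [sq_abs] at h5
    calc L ^ 4 = (L ^ 2) ^ 2 := by ring
      _ ≤ _ := h5
  have hexpL : 7 * X * L * (Real.exp (C1 * L ^ 2) * Real.exp (-L ^ 4)) ≤ Real.exp (-L) := by
    have h4 : (7 : ℝ) ≤ Real.exp 2 := by
      have := Real.exp_one_gt_d9
      have h5 : Real.exp 2 = Real.exp 1 * Real.exp 1 := by rw [← Real.exp_add]; norm_num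
      rw [h5]
      nlinarith
    have h5 : L ≤ Real.exp L := by
      have := Real.add_one_le_exp L
      linarith
    rw [hXL]
    calc 7 * Real.exp L * L * (Real.exp (C1 * L ^ 2) * Real.exp (-L ^ 4))
        ≤ Real.exp 2 * Real.exp L * Real.exp L * (Real.exp (C1 * L ^ 2) * Real.exp (-L ^ 4)) := by
          gcongr
      _ = Real.exp (2 + L + L + (C1 * L ^ 2 + -L ^ 4)) := by
          rw [Real.exp_add, Real.exp_add, Real.exp_add, Real.exp_add]
      _ ≤ Real.exp (-L) := by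
          rw [Real.exp_le_exp]
          have h6 : 1 ≤ L ^ 2 := one_le_pow₀ hL1
          have h7 : L ≤ L ^ 2 := by nlinarith
          have h8 : (C1 + 6) * L ^ 2 ≤ L * L ^ 2 := mul_le_mul_of_nonneg_right hL6 (by positivity)
          have h9 : L * L ^ 2 ≤ L ^ 4 := by
            have : L ^ 4 = L * (L * L ^ 2) := by ring
            rw [this]
            have h10 : 0 ≤ L * L ^ 2 := by positivity
            nlinarith
          nlinarith
  set ε : ℝ := Real.exp (-L) with hε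
  have hεpos : 0 < ε := Real.exp_pos _
  have hε1 : ε * (16 * (3 + |a|)) ≤ 1 := by
    have h4 : L ≤ Real.exp L := by
      have := Real.add_one_le_exp L
      linarith
    calc ε * (16 * (3 + |a|)) ≤ ε * Real.exp L := mul_le_mul_of_nonneg_left (hL16.trans h4) hεpos.le
      _ = 1 := by rw [hε, ← Real.exp_add, neg_add_cancel, Real.exp_zero]
  have hε2 : ε ≤ 1 / 2 := by nlinarith
  have hcr : (Zr.card : ℝ) ≤ 7 * X * L := by
    refine le_trans ?_ hcZ
    exact_mod_cast Finset.card_filter_le _ _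
  have hrest : ∑ t ∈ Zr, ‖aa t‖ * Real.exp (-(t - T) ^ 2) ≤ ε := by
    calc ∑ t ∈ Zr, ‖aa t‖ * Real.exp (-(t - T) ^ 2)
        ≤ ∑ _t ∈ Zr, Real.exp (C1 * L ^ 2) * Real.exp (-L ^ 4) := by
          refine Finset.sum_le_sum fun t ht => ?_
          refine mul_le_mul (hAB' t (Finset.mem_filter.1 ht).1) ?_ (Real.exp_pos _).le (Real.exp_pos _).le
          rw [Real.exp_le_exp]
          linarith [hfar t ht]
      _ = Zr.card * (Real.exp (C1 * L ^ 2) * Real.exp (-L ^ 4)) := by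
          rw [Finset.sum_const, nsmul_eq_mul]
      _ ≤ 7 * X * L * (Real.exp (C1 * L ^ 2) * Real.exp (-L ^ 4)) :=
          mul_le_mul_of_nonneg_right hcr (by positivity)
      _ ≤ ε := hexpL
  have hsmall : Real.exp (C1 * L ^ 2) * Real.exp (-L ^ 4) ≤ 1 := by
    rw [← Real.exp_add, Real.exp_le_one_iff]
    have h8 : (C1 + 6) * L ^ 2 ≤ L * L ^ 2 := mul_le_mul_of_nonneg_right hL6 (by positivity)
    have h9 : L * L ^ 2 ≤ L ^ 4 := by
      have : L ^ 4 = L * (L * L ^ 2) := by ring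
      rw [this]
      have h10 : 0 ≤ L * L ^ 2 := by positivity
      nlinarith
    nlinarith [sq_nonneg L]
  have hrest2 : ∑ t ∈ Zr, ‖aa t‖ ^ 2 * Real.exp (-(2 * (t - T) ^ 2)) ≤ ε := by
    refine le_trans (Finset.sum_le_sum fun t ht => ?_) hrest
    have h4 : ‖aa t‖ * Real.exp (-(t - T) ^ 2) ≤ 1 := by
      refine le_trans (mul_le_mul (hAB' t (Finset.mem_filter.1 ht).1) ?_ (Real.exp_pos _).le (Real.exp_pos _).le) hsmall
      rw [Real.exp_le_exp]
      linarith [hfar t ht]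
    have h5 : ‖aa t‖ ^ 2 * Real.exp (-(2 * (t - T) ^ 2)) = (‖aa t‖ * Real.exp (-(t - T) ^ 2)) * (‖aa t‖ * Real.exp (-(t - T) ^ 2)) := by
      have : Real.exp (-(2 * (t - T) ^ 2)) = Real.exp (-(t - T) ^ 2) * Real.exp (-(t - T) ^ 2) := by
        rw [← Real.exp_add]
        congr 1
        ring
      rw [this]
      ring
    rw [h5]
    have h6 : 0 ≤ ‖aa t‖ * Real.exp (-(t - T) ^ 2) := by positivity
    nlinarith
  -- the integral
  have hZs : ∀ v, ‖ZZ Z' 1 v T‖ ≤ ‖ZZ Z 1 v T‖ + ε := by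
    intro v
    have h4 : ZZ Z' 1 v T + ZZ Zr 1 v T = ZZ Z 1 v T := by
      unfold ZZ
      exact Finset.sum_filter_add_sum_filter_not Z _ _
    have h5 : ‖ZZ Zr 1 v T‖ ≤ ε := by
      refine le_trans ?_ hrest
      unfold ZZ
      refine (norm_sum_le _ _).trans (Finset.sum_le_sum fun t _ => ?_)
      rw [norm_mul, norm_exp_ofReal_mul_I, mul_one, norm_b]
    have h6 : ZZ Z' 1 v T = ZZ Z 1 v T - ZZ Zr 1 v T := by rw [← h4]; ring
    rw [h6]
    exact (norm_sub_le _ _).trans (by linarith)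
  have hsqb : ∀ v, ‖ZZ Z' 1 v T‖ ^ 2 ≤ 2 * ‖ZZ Z 1 v T‖ ^ 2 + 2 * ε ^ 2 := by
    intro v
    have h4 : ‖ZZ Z' 1 v T‖ ^ 2 ≤ (‖ZZ Z 1 v T‖ + ε) ^ 2 := pow_le_pow_left₀ (norm_nonneg _) (hZs v) 2
    nlinarith [sq_nonneg (‖ZZ Z 1 v T‖ - ε)]
  have hcont1 : Continuous fun v => ‖ZZ Z' 1 v T‖ ^ 2 := (ZZ_cont Z' 1 T).norm.pow 2
  have hcont0 : Continuous fun v => ‖ZZ Z 1 v T‖ ^ 2 := (ZZ_cont Z 1 T).norm.pow 2
  have hcont2 : Continuous fun v => 2 * ‖ZZ Z 1 v T‖ ^ 2 + 2 * ε ^ 2 := by fun_prop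
  have hint : ∫ v in (-L)..(-L + P + 2), ‖ZZ Z' 1 v T‖ ^ 2 ≤
      2 * (∫ v in (-L)..U, ‖ZZ Z 1 v T‖ ^ 2) + 2 * ε ^ 2 * (U + L) := by
    calc ∫ v in (-L)..(-L + P + 2), ‖ZZ Z' 1 v T‖ ^ 2
        ≤ ∫ v in (-L)..(-L + P + 2), (2 * ‖ZZ Z 1 v T‖ ^ 2 + 2 * ε ^ 2) :=
          intervalIntegral.integral_mono_on (by linarith) (hcont1.intervalIntegrable _ _) (hcont2.intervalIntegrable _ _)
            fun v _ => hsqb v
      _ ≤ ∫ v in (-L)..U, (2 * ‖ZZ Z 1 v T‖ ^ 2 + 2 * ε ^ 2) :=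
          intervalIntegral.integral_mono_interval le_rfl (by linarith) hPU
            (Eventually.of_forall fun v => by simp only [Pi.zero_apply]; positivity) (hcont2.intervalIntegrable _ _)
      _ = 2 * (∫ v in (-L)..U, ‖ZZ Z 1 v T‖ ^ 2) + 2 * ε ^ 2 * (U + L) := by
          rw [intervalIntegral.integral_add ((hcont0.const_mul 2).intervalIntegrable _ _)
            (continuous_const.intervalIntegrable _ _), intervalIntegral.integral_const_mul,
            intervalIntegral.integral_const, smul_eq_mul]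
          ring
  have hJ0 : 0 ≤ ∫ v in (-L)..U, ‖ZZ Z 1 v T‖ ^ 2 :=
    intervalIntegral.integral_nonneg (by linarith) fun v _ => by positivity
  have hN' : ∑ t ∈ Z', ‖aa t‖ ^ 2 * Real.exp (-(2 * (t - T) ^ 2)) = ∑ t ∈ Z', (‖aa t‖ * Real.exp (-(t - T) ^ 2)) ^ 2 := by
    refine Finset.sum_congr rfl fun t _ => ?_
    have : Real.exp (-(2 * (t - T) ^ 2)) = Real.exp (-(t - T) ^ 2) ^ 2 := by
      rw [← Real.exp_nat_mul]
      congr 1
      push_cast
      ring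
    rw [this]
    ring
  have hN : N2 Z T = ∑ t ∈ Z', ‖aa t‖ ^ 2 * Real.exp (-(2 * (t - T) ^ 2)) +
      ∑ t ∈ Zr, ‖aa t‖ ^ 2 * Real.exp (-(2 * (t - T) ^ 2)) := by
    unfold N2
    exact (Finset.sum_filter_add_sum_filter_not Z _ _).symm
  set S : ℝ := ∑ t ∈ Z', (‖aa t‖ * Real.exp (-(t - T) ^ 2)) ^ 2 with hSdef
  set J : ℝ := ∫ v in (-L)..U, ‖ZZ Z 1 v T‖ ^ 2 with hJdef
  have hSnn : 0 ≤ S := Finset.sum_nonneg fun t _ => by positivity
  have hSJ : S ≤ 4 / L * J + 4 / L * ε ^ 2 * (U + L) := by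
    have h4 : L / 2 * S ≤ 2 * J + 2 * ε ^ 2 * (U + L) := by
      have h5 : L / 2 * S ≤ P / 2 * S := mul_le_mul_of_nonneg_right (by linarith) hSnn
      linarith
    have h6 : S = 2 / L * (L / 2 * S) := by field_simp
    rw [h6]
    calc 2 / L * (L / 2 * S) ≤ 2 / L * (2 * J + 2 * ε ^ 2 * (U + L)) :=
          mul_le_mul_of_nonneg_left h4 (by positivity)
      _ = _ := by ring
  have hlast : 4 / L * ε ^ 2 * (U + L) + ε ≤ 1 := by
    have h4 : (U + L) / L ≤ 2 * (3 + |a|) := by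
      rw [div_le_iff₀ hLpos, hUdef]
      nlinarith
    have h5 : 4 / L * ε ^ 2 * (U + L) = 4 * ε ^ 2 * ((U + L) / L) := by ring
    rw [h5]
    have h6 : 4 * ε ^ 2 * ((U + L) / L) ≤ 4 * ε ^ 2 * (2 * (3 + |a|)) :=
      mul_le_mul_of_nonneg_left h4 (by positivity)
    have h7 : 4 * ε ^ 2 * (2 * (3 + |a|)) = ε * (ε * (16 * (3 + |a|))) / 2 := by ring
    have h8 : ε * (ε * (16 * (3 + |a|))) ≤ ε * 1 := mul_le_mul_of_nonneg_left hε1 hεpos.le
    linarith
  rw [hN, hN']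
  linarith

end Pool.Agent.Q204.AL
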