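import Pool.Agent.Q72.AL.Stm2

/-! Job AL-WM. -/

set_option autoImplicit false

open Complex MeasureTheory Filter Topology Set

namespace Pool.Agent.Q204.AL

open Pool.Agent.Q72.AL

theorem cont_cp (s : ℂ) {a b : ℝ} (ha : 0 < a) (hb : 0 < b) :
    ContinuousOn (fun τ : ℝ => (τ : ℂ) ^ s) (uIcc a b) := by
  refine continuous_ofReal.continuousOn.cpow_const fun τ hτ => ?_
  left
  rw [ofReal_re]
  exact (lt_min ha hb).trans_le hτ.1

theorem int_log (s : ℂ) (hs : s ≠ -1) {a b : ℝ} (ha : 0 < a) (hb : 0 < b) :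
    ∫ τ in a..b, ((Real.log τ : ℝ) : ℂ) * (τ : ℂ) ^ s =
      ((b : ℂ) ^ (s + 1) / (s + 1) * ((Real.log b : ℝ) : ℂ) - (b : ℂ) ^ (s + 1) / (s + 1) / (s + 1)) -
      ((a : ℂ) ^ (s + 1) / (s + 1) * ((Real.log a : ℝ) : ℂ) - (a : ℂ) ^ (s + 1) / (s + 1) / (s + 1)) := by
  have hs1 : s + 1 ≠ 0 := fun h => hs (by linear_combination h)
  have hpos : ∀ τ ∈ uIcc a b, 0 < τ := fun τ hτ => (lt_min ha hb).trans_le hτ.1
  refine intervalIntegral.integral_eq_sub_of_hasDerivAt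
    (f := fun τ : ℝ => (τ : ℂ) ^ (s + 1) / (s + 1) * ((Real.log τ : ℝ) : ℂ) - (τ : ℂ) ^ (s + 1) / (s + 1) / (s + 1))
    (fun τ hτ => ?_) ?_
  · have h0 := hpos τ hτ
    have h1 : HasDerivAt (fun y : ℝ => (y : ℂ) ^ (s + 1) / (s + 1)) ((τ : ℂ) ^ s) τ :=
      hasDerivAt_ofReal_cpow_const' h0.ne' hs
    have h2 : HasDerivAt (fun y : ℝ => ((Real.log y : ℝ) : ℂ)) ((τ⁻¹ : ℝ) : ℂ) τ :=
      (Real.hasDerivAt_log h0.ne').ofReal_comp
    have h3 := (h1.mul h2).sub (h1.div_const (s + 1))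
    refine h3.congr_deriv ?_
    have h4 : (τ : ℂ) ≠ 0 := by exact_mod_cast h0.ne'
    have h5 : (τ : ℂ) ^ (s + 1) = (τ : ℂ) ^ s * τ := by
      rw [cpow_add _ _ h4, cpow_one]
    rw [h5]
    push_cast
    field_simp
    ring
  · refine ContinuousOn.intervalIntegrable ?_
    refine ContinuousOn.mul ?_ (cont_cp s ha hb)
    exact continuous_ofReal.comp_continuousOn
      (Real.continuousOn_log.mono fun τ hτ => (hpos τ hτ).ne')

theorem int_pw (s : ℂ) (hs : s ≠ -1) {a b : ℝ} (ha : 0 < a) (hb : 0 < b) :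
    ∫ τ in a..b, (τ : ℂ) ^ s = (b : ℂ) ^ (s + 1) / (s + 1) - (a : ℂ) ^ (s + 1) / (s + 1) := by
  have hpos : ∀ τ ∈ uIcc a b, 0 < τ := fun τ hτ => (lt_min ha hb).trans_le hτ.1
  exact intervalIntegral.integral_eq_sub_of_hasDerivAt
    (f := fun τ : ℝ => (τ : ℂ) ^ (s + 1) / (s + 1))
    (fun τ hτ => hasDerivAt_ofReal_cpow_const' (hpos τ hτ).ne' hs)
    (cont_cp s ha hb).intervalIntegrable

theorem wm : J_WM := by
  intro s hs
  have hs1 : s + 1 ≠ 0 := fun h => hs (by linear_combination h)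
  have h2 : (0 : ℝ) < √2 := Real.sqrt_pos.2 two_pos
  have h1s : (1 : ℝ) ≤ √2 := by
    rw [show (1 : ℝ) = √1 by simp]
    exact Real.sqrt_le_sqrt one_le_two
  have hs2 : √2 ≤ (2 : ℝ) := by
    rw [Real.sqrt_le_left (by norm_num)]
    norm_num
  have hl : Real.log √2 = Real.log 2 / 2 := Real.log_sqrt (by norm_num)
  have hl2 : 0 < Real.log 2 := Real.log_pos one_lt_two
  have hI1 : ∫ τ in (1 : ℝ)..√2, ((wt τ : ℝ) : ℂ) * (τ : ℂ) ^ s = ∫ τ in (1 : ℝ)..√2, ((Real.log τ : ℝ) : ℂ) * (τ : ℂ) ^ s := by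
    refine intervalIntegral.integral_congr fun τ hτ => ?_
    rw [uIcc_of_le h1s] at hτ
    have h3 : 0 ≤ Real.log τ := Real.log_nonneg hτ.1
    have h4 : Real.log τ ≤ Real.log 2 / 2 := by
      rw [← hl]
      exact Real.log_le_log (by linarith [hτ.1]) hτ.2
    simp only [wt]
    rw [min_eq_left (by linarith), max_eq_right h3]
  have hI2 : ∫ τ in √2..(2 : ℝ), ((wt τ : ℝ) : ℂ) * (τ : ℂ) ^ s = ∫ τ in √2..(2 : ℝ),
      (((Real.log 2 : ℝ) : ℂ) * (τ : ℂ) ^ s - ((Real.log τ : ℝ) : ℂ) * (τ : ℂ) ^ s) := by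
    refine intervalIntegral.integral_congr fun τ hτ => ?_
    rw [uIcc_of_le hs2] at hτ
    have h0 : 0 < τ := h2.trans_le hτ.1
    have h3 : Real.log τ ≤ Real.log 2 := Real.log_le_log h0 hτ.2
    have h4 : Real.log 2 / 2 ≤ Real.log τ := by
      rw [← hl]
      exact Real.log_le_log h2 hτ.1
    simp only [wt]
    rw [min_eq_right (by linarith), max_eq_right (by linarith)]
    push_cast
    ring
  have hwc : Continuous fun τ : ℝ => max (0 : ℝ) τ := by fun_prop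
  have hwt : ∀ a b : ℝ, 0 < a → 0 < b → ContinuousOn (fun τ : ℝ => ((wt τ : ℝ) : ℂ) * (τ : ℂ) ^ s) (uIcc a b) := by
    intro a b ha hb
    have hlog : ContinuousOn Real.log (uIcc a b) :=
      Real.continuousOn_log.mono fun τ hτ => ((lt_min ha hb).trans_le hτ.1).ne'
    refine ContinuousOn.mul (continuous_ofReal.comp_continuousOn ?_) (cont_cp s ha hb)
    unfold wt
    exact continuousOn_const.sup (hlog.inf (continuousOn_const.sub hlog))
  rw [← intervalIntegral.integral_add_adjacent_intervals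
    (hwt 1 √2 one_pos h2).intervalIntegrable (hwt √2 2 h2 two_pos).intervalIntegrable, hI1, hI2,
    intervalIntegral.integral_sub, intervalIntegral.integral_const_mul, int_log s hs one_pos h2,
    int_log s hs h2 two_pos, int_pw s hs h2 two_pos, hl]
  · have hq : (((√2 : ℝ) : ℂ)) ^ (s + 1) = (2 : ℂ) ^ ((s + 1) / 2) := by
      rw [cpow_def_of_ne_zero (by exact_mod_cast h2.ne'), cpow_def_of_ne_zero two_ne_zero,
        ← ofReal_log h2.le, hl]
      rw [show (2 : ℂ) = ((2 : ℝ) : ℂ) by norm_num, ← ofReal_log (by norm_num : (0 : ℝ) ≤ 2)]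
      push_cast
      ring_nf
    have hq2 : (((2 : ℝ) : ℂ)) ^ (s + 1) = ((2 : ℂ) ^ ((s + 1) / 2)) ^ 2 := by
      rw [sq, ← cpow_add _ _ two_ne_zero]
      norm_num
    rw [hq, hq2]
    generalize (2 : ℂ) ^ ((s + 1) / 2) = q
    simp only [ofReal_one, one_cpow, Real.log_one, ofReal_zero, mul_zero, zero_sub]
    push_cast
    field_simp
    ring
  · exact (continuousOn_const.mul (cont_cp s h2 two_pos)).intervalIntegrable
  · refine ContinuousOn.intervalIntegrable (ContinuousOn.mul ?_ (cont_cp s h2 two_pos))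
    exact continuous_ofReal.comp_continuousOn
      (Real.continuousOn_log.mono fun τ hτ => ((lt_min h2 two_pos).trans_le hτ.1).ne')

end Pool.Agent.Q204.AL
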